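import Pool.Agent.Q278.El.TaskInv

namespace Pool.Agent.Q278.El
open Finset

theorem edge_fromEdgeSet {s : Set (Sym2 ℕ)} (h : ∀ p ∈ s, ¬ p.IsDiag) :
    (SimpleGraph.fromEdgeSet s).edgeSet = s := by
  rw [SimpleGraph.edgeSet_fromEdgeSet]
  ext p
  constructor
  · intro hp; exact hp.1
  · intro hp; exact ⟨hp, fun hd => h p hp (by simpa using hd)⟩

/-- Hider wins every run in which he follows the rule, if `k ≥ 2`. -/
theorem core (hF : TaskFin) (hL : TaskLow) {k : ℕ} (hk : 2 ≤ k) {e : ℕ → Sym2 ℕ} {c : ℕ → Bool}
    (hR : Run k e c) : ¬ SeekerWins (MinDeg k) e c := by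
  classical
  rintro ⟨⟨p, hp⟩, hS⟩
  have hgd : ∀ p ∈ green e c, ¬ p.IsDiag := by
    rintro _ ⟨n, rfl, _⟩
    exact hR.diag n
  have hud : ∀ p ∈ green e c ∪ white e, ¬ p.IsDiag := by
    rintro q (hq | hq)
    · exact hgd q hq
    · exact hq.1
  rcases hS with hS | hS
  · -- the green graph is not in `MinDeg k`
    obtain ⟨a, b', rfl, hab⟩ : ∃ a b' : ℕ, p = s(a, b') ∧ a < b' := by
      induction p with
      | _ u v =>
        have huv : u ≠ v := by
          intro h
          exact hp.1 (by rw [h]; exact Sym2.mk_isDiag_iff.2 rfl)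
        rcases Nat.lt_or_ge u v with h | h
        · exact ⟨u, v, rfl, h⟩
        · exact ⟨v, u, Sym2.eq_swap, by omega⟩
    have hG := hS (show SimpleGraph.fromEdgeSet (green e c) ∈ possible e c from by
      unfold possible
      simp only [Set.mem_ofPred_eq]
      rw [edge_fromEdgeSet hgd]
      exact ⟨subset_rfl, Set.subset_union_left⟩)
    obtain ⟨n, hn⟩ := hF e c k b' _ (edge_fromEdgeSet hgd) (hG b')
    have h1 := (Inv k e c hR n b').1
    have h2 : 1 ≤ b e n b' := by
      unfold b
      apply Finset.card_pos.2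
      refine ⟨a, ?_⟩
      simp only [Finset.mem_filter, Finset.mem_range]
      exact ⟨hab, fun m _ => hp.2 m⟩
    omega
  · -- green ∪ white is in `MinDeg k`
    have hU : SimpleGraph.fromEdgeSet (green e c ∪ white e) ∈ possible e c := by
      unfold possible
      simp only [Set.mem_ofPred_eq]
      rw [edge_fromEdgeSet hud]
      exact ⟨Set.subset_union_left, subset_rfl⟩
    have hnot : SimpleGraph.fromEdgeSet (green e c ∪ white e) ∉ MinDeg k := by
      intro h
      have : SimpleGraph.fromEdgeSet (green e c ∪ white e) ∈ possible e c ∩ MinDeg k := ⟨hU, h⟩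
      rw [hS] at this
      exact this
    unfold MinDeg at hnot
    simp only [Set.mem_ofPred_eq, not_forall, not_le] at hnot
    obtain ⟨v, hv⟩ := hnot
    obtain ⟨N, hN⟩ := hL e c k v _ hR.diag hR.inj (edge_fromEdgeSet hud) hv
    have hfin : ((SimpleGraph.fromEdgeSet (green e c ∪ white e)).neighborSet v).Finite := by
      rw [← Set.encard_lt_top_iff]
      exact hv.trans (by exact_mod_cast ENat.natCast_lt_top k)
    -- the vertices `z = 2^v * (2 j + 1)`
    set f : ℕ → ℕ := fun j => 2 ^ v * (2 * j + 1) with hf
    have hfv : ∀ j, padicValNat 2 (f j) = v := by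
      intro j
      rw [hf]
      have : Fact (Nat.Prime 2) := ⟨Nat.prime_two⟩
      simp only
      rw [padicValNat.mul (by positivity) (by omega), padicValNat.prime_pow,
        padicValNat.eq_zero_of_not_dvd (by omega), add_zero]
    have hflt : ∀ j, v < f j := by
      intro j
      have h1 : v < 2 ^ v := Nat.lt_two_pow_self
      have h2 : 2 ^ v * 1 ≤ 2 ^ v * (2 * j + 1) := Nat.mul_le_mul_left _ (by omega)
      simp only [hf]
      omega
    have hfinj : Function.Injective f := by
      intro i j hij
      simp only [hf] at hij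
      have := Nat.eq_of_mul_eq_mul_left (by positivity) hij
      omega
    -- finitely many `j` are bad
    have hbad : ({j : ℕ | f j ∈ (SimpleGraph.fromEdgeSet (green e c ∪ white e)).neighborSet v} ∪
        {j : ℕ | ∃ m < N, e m = s(v, f j)}).Finite := by
      apply Set.Finite.union
      · exact hfin.preimage hfinj.injOn
      · have : {j : ℕ | ∃ m < N, e m = s(v, f j)} ⊆ ⋃ m ∈ Finset.range N, {j : ℕ | e m = s(v, f j)} := by
          intro j hj
          obtain ⟨m, hm, h⟩ := hj
          simp only [Set.mem_iUnion]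
          exact ⟨m, Finset.mem_range.2 hm, h⟩
        refine Set.Finite.subset ?_ this
        apply Set.Finite.biUnion (Finset.finite_toSet _)
        intro m _
        apply Set.Subsingleton.finite
        intro i hi j hj
        have hij : s(v, f i) = s(v, f j) := by
          have hi' : e m = s(v, f i) := hi
          have hj' : e m = s(v, f j) := hj
          rw [← hi', ← hj']
        rw [Sym2.eq_iff] at hij
        rcases hij with h | h
        · exact hfinj h.2
        · exact hfinj (by rw [h.2, ← h.1])
    obtain ⟨j, hj⟩ := hbad.infinite_compl.nonempty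
    simp only [Set.mem_compl_iff, Set.mem_union, not_or] at hj
    obtain ⟨hj1, hj2⟩ := hj
    have hvf := hflt j
    have hne : s(v, f j) ∉ green e c ∪ white e := by
      intro h
      apply hj1
      show f j ∈ (SimpleGraph.fromEdgeSet (green e c ∪ white e)).neighborSet v
      rw [SimpleGraph.mem_neighborSet, SimpleGraph.fromEdgeSet_adj]
      exact ⟨h, by omega⟩
    have hask : ∃ m, e m = s(v, f j) := by
      by_contra hno
      push Not at hno
      exact hne (Or.inr ⟨by rw [Sym2.mk_isDiag_iff]; omega, hno⟩)
    obtain ⟨m, hm⟩ := hask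
    have hmN : N ≤ m := by
      by_contra hlt
      exact hj2 ⟨m, by omega, hm⟩
    have hgreen : c m = true :=
      (hR.rule m).2 ⟨v, f j, hvf, hm, (hfv j).symm, hN m hmN⟩
    exact hne (Or.inl ⟨m, hm, hgreen⟩)

end Pool.Agent.Q278.El
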