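import Mathlib

/-! The Seeker-Hider game on the pairs of natural numbers (MP_3b52ff_co). -/

namespace Pool.Agent.Q278.El
open Finset

/-- The green pairs of the run in which Seeker asks `e 0, e 1, ...` and Hider answers `c 0, c 1, ...`
(`true` is green, `false` is red). -/
def green (e : ℕ → Sym2 ℕ) (c : ℕ → Bool) : Set (Sym2 ℕ) := {p | ∃ n, e n = p ∧ c n = true}

/-- The pairs which are white at the end of the run. -/
def white (e : ℕ → Sym2 ℕ) : Set (Sym2 ℕ) := {p | ¬ p.IsDiag ∧ ∀ n, e n ≠ p}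

/-- The graphs `H` on `ℕ` with `green ⊆ H ⊆ green ∪ white`. -/
def possible (e : ℕ → Sym2 ℕ) (c : ℕ → Bool) : Set (SimpleGraph ℕ) :=
  {H | green e c ⊆ H.edgeSet ∧ H.edgeSet ⊆ green e c ∪ white e}

/-- Seeker wins the run: some pair is white, and the possible graphs all have the property `S` or
all do not have it. -/
def SeekerWins (S : Set (SimpleGraph ℕ)) (e : ℕ → Sym2 ℕ) (c : ℕ → Bool) : Prop :=
  (white e).Nonempty ∧ (possible e c ⊆ S ∨ possible e c ∩ S = ∅)

/-- The first `n` turns of a run: the pairs with their colours. -/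
def hist (e : ℕ → Sym2 ℕ) (c : ℕ → Bool) (n : ℕ) : List (Sym2 ℕ × Bool) :=
  (List.range n).map fun m => (e m, c m)

/-- A strategy of Seeker gives the pair to be asked after every finite history; it is winning if in
every run which follows it, all the pairs asked are white at the time, and Seeker wins. -/
def Winning (S : Set (SimpleGraph ℕ)) (σ : List (Sym2 ℕ × Bool) → Sym2 ℕ) : Prop :=
  ∀ (e : ℕ → Sym2 ℕ) (c : ℕ → Bool), (∀ n, e n = σ (hist e c n)) →
    (∀ n, ¬ (e n).IsDiag ∧ ∀ m < n, e m ≠ e n) ∧ SeekerWins S e c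

/-- `S` is `∞`-elusive: Seeker has no winning strategy. -/
def InfElusive (S : Set (SimpleGraph ℕ)) : Prop := ¬ ∃ σ, Winning S σ

/-- Every vertex has degree at least `k`. -/
def MinDeg (k : ℕ) : Set (SimpleGraph ℕ) := {H | ∀ v, (k : ℕ∞) ≤ (H.neighborSet v).encard}

/-- Green degree of `x` before turn `n`. -/
def g (e : ℕ → Sym2 ℕ) (c : ℕ → Bool) (n x : ℕ) : ℕ :=
  ((range n).filter fun m => c m = true ∧ x ∈ e m).card

open Classical in
/-- The number of `u < x` with `{u, x}` white before turn `n`. -/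
noncomputable def b (e : ℕ → Sym2 ℕ) (n x : ℕ) : ℕ :=
  ((range x).filter fun u => ∀ m < n, e m ≠ s(u, x)).card

/-- The rule of Hider: green iff `x = v_2(z)` is in need. -/
def Rule (k : ℕ) (e : ℕ → Sym2 ℕ) (c : ℕ → Bool) (n : ℕ) : Prop :=
  ∃ x z : ℕ, x < z ∧ e n = s(x, z) ∧ x = padicValNat 2 z ∧ g e c n x + b e n x < k

/-- A legal run in which Hider follows the rule. -/
structure Run (k : ℕ) (e : ℕ → Sym2 ℕ) (c : ℕ → Bool) : Prop where
  diag : ∀ n, ¬ (e n).IsDiag
  inj : ∀ m n, e m = e n → m = n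
  rule : ∀ n, c n = true ↔ Rule k e c n

/-- T1. The invariant. Hint: induction on `n`, for all `v`; at turn `n` with `e n = s(x, z)`, `x < z`:
`b` changes only at `z`, where it drops by one; `g` changes at `x` and `z` only if the answer is
green, and then `x = v_2(z)`, `g + b < k` at `x`, and the pair `s(v_2(z), z)` was not asked before. -/
def TaskInv : Prop := ∀ (k : ℕ) (e : ℕ → Sym2 ℕ) (c : ℕ → Bool), Run k e c → ∀ n v,
  (g e c n v + b e n v ≤ k ∨ g e c n v ≤ 1) ∧
  ((∀ m < n, e m ≠ s(padicValNat 2 v, v)) → g e c n v + b e n v ≤ k ∨ g e c n v = 0)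

/-- T2. Green degrees are attained at finite times. -/
def TaskFin : Prop := ∀ (e : ℕ → Sym2 ℕ) (c : ℕ → Bool) (k v : ℕ) (H : SimpleGraph ℕ),
  H.edgeSet = green e c → (k : ℕ∞) ≤ (H.neighborSet v).encard → ∃ n, k ≤ g e c n v

/-- T3. If the degree of `v` in green ∪ white is less than `k`, then `g + b < k` at `v` from some
time on. Hint: from the time `N` on at which all the asked pairs `s(u, v)`, `u < v`, have been asked,
the green neighbours before `n` and the `u < v` counted by `b` are disjoint sets of neighbours. -/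
def TaskLow : Prop := ∀ (e : ℕ → Sym2 ℕ) (c : ℕ → Bool) (k v : ℕ) (H : SimpleGraph ℕ),
  (∀ n, ¬ (e n).IsDiag) → (∀ m n, e m = e n → m = n) →
  H.edgeSet = green e c ∪ white e → (H.neighborSet v).encard < k →
  ∃ N, ∀ n, N ≤ n → g e c n v + b e n v < k

/-- T4. For a strategy `σ` of Seeker there is a run following `σ` in which Hider follows the rule. -/
def TaskRun : Prop := ∀ (k : ℕ) (σ : List (Sym2 ℕ × Bool) → Sym2 ℕ),
  ∃ (e : ℕ → Sym2 ℕ) (c : ℕ → Bool), (∀ n, e n = σ (hist e c n)) ∧ ∀ n, c n = true ↔ Rule k e c n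

end Pool.Agent.Q278.El
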