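import Pool.Agent.Q278.El.Defs

/-! Green degrees are attained at finite times. -/

namespace Pool.Agent.Q278.El
open Finset

theorem Fin' : TaskFin := by
  intro e c k v H hH hk
  obtain ⟨T, hT, hc⟩ := Set.exists_subset_encard_eq hk
  have hfin : T.Finite := Set.finite_of_encard_eq_coe hc
  have hcard : hfin.toFinset.card = k := by
    rw [hfin.encard_eq_coe_toFinset_card] at hc
    exact_mod_cast hc
  have hex : ∀ y, ∃ m, y ∈ T → e m = s(v, y) ∧ c m = true := by
    intro y
    by_cases hy : y ∈ T
    · have h1 : H.Adj v y := hT hy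
      have h2 : s(v, y) ∈ green e c := by
        rw [← hH]
        exact (SimpleGraph.mem_edgeSet H).2 h1
      obtain ⟨m, hm⟩ := h2
      exact ⟨m, fun _ => hm⟩
    · exact ⟨0, fun h => absurd h hy⟩
  choose f hf using hex
  refine ⟨hfin.toFinset.sup f + 1, ?_⟩
  rw [← hcard]
  unfold g
  refine Finset.card_le_card_of_injOn f ?_ ?_
  · intro y hy
    have hy' : y ∈ T := by simpa using hy
    have hle : f y ≤ hfin.toFinset.sup f := Finset.le_sup (f := f) (by simpa using hy)
    rw [Finset.mem_coe, Finset.mem_filter, Finset.mem_range]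
    refine ⟨Nat.lt_succ_of_le hle, (hf y hy').2, ?_⟩
    rw [(hf y hy').1]
    exact Sym2.mem_mk_left v y
  · intro y hy y' hy' h
    have hy1 : y ∈ T := by simpa using hy
    have hy2 : y' ∈ T := by simpa using hy'
    have h1 := (hf y hy1).1
    rw [h, (hf y' hy2).1] at h1
    exact (Sym2.congr_right.1 h1).symm

end Pool.Agent.Q278.El
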