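import Pool.Agent.Q278.El.Defs

namespace Pool.Agent.Q278.El
open Finset

variable {k : ℕ} {e : ℕ → Sym2 ℕ} {c : ℕ → Bool}

theorem g_succ (e : ℕ → Sym2 ℕ) (c : ℕ → Bool) (n v : ℕ) :
    g e c (n + 1) v = g e c n v + if c n = true ∧ v ∈ e n then 1 else 0 := by
  unfold g
  rw [Finset.range_add_one, Finset.filter_insert]
  split
  · rw [Finset.card_insert_of_notMem]
    simp
  · rfl

theorem b_mono (e : ℕ → Sym2 ℕ) (n v : ℕ) : b e (n + 1) v ≤ b e n v := by
  classical
  unfold b
  apply Finset.card_le_card
  intro u hu
  simp only [Finset.mem_filter] at hu ⊢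
  exact ⟨hu.1, fun m hm => hu.2 m (by omega)⟩

theorem b_lt {e : ℕ → Sym2 ℕ} {n x z : ℕ} (hxz : x < z) (he : e n = s(x, z))
    (hnew : ∀ m < n, e m ≠ s(x, z)) : b e (n + 1) z + 1 ≤ b e n z := by
  classical
  unfold b
  apply Finset.card_lt_card
  rw [Finset.ssubset_iff_of_subset]
  · refine ⟨x, ?_, ?_⟩
    · simp only [Finset.mem_filter, Finset.mem_range]
      exact ⟨hxz, hnew⟩
    · simp only [Finset.mem_filter, not_and, not_forall]
      intro _
      exact ⟨n, by omega, fun h => h he⟩
  · intro u hu
    simp only [Finset.mem_filter] at hu ⊢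
    exact ⟨hu.1, fun m hm => hu.2 m (by omega)⟩

theorem Inv : TaskInv := by
  intro k e c hR n
  induction n with
  | zero =>
    intro v
    have h0 : g e c 0 v = 0 := by simp [g]
    exact ⟨Or.inr (by omega), fun _ => Or.inr h0⟩
  | succ n ih =>
    intro v
    obtain ⟨ih1, ih2⟩ := ih v
    have hg := g_succ e c n v
    have hb := b_mono e n v
    by_cases hc : c n = true ∧ v ∈ e n
    · rw [if_pos hc] at hg
      obtain ⟨hc1, hv⟩ := hc
      obtain ⟨x, z, hxz, he, hx, hneed⟩ := (hR.rule n).1 hc1
      rw [he, Sym2.mem_iff] at hv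
      rcases hv with rfl | rfl
      · exact ⟨Or.inl (by omega), fun _ => Or.inl (by omega)⟩
      · have hnew : ∀ m < n, e m ≠ s(x, v) := by
          intro m hm h
          have := hR.inj m n (by rw [h, he])
          omega
        have hlt := b_lt hxz he hnew
        have h2 := ih2 (by rw [← hx]; exact hnew)
        refine ⟨?_, fun h => ?_⟩
        · rcases h2 with h2 | h2
          · left; omega
          · right; omega
        · exact absurd (by rw [he, ← hx]) (h n (by omega))
    · rw [if_neg hc] at hg
      refine ⟨?_, fun h => ?_⟩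
      · rcases ih1 with h1 | h1
        · left; omega
        · right; omega
      · have h2 := ih2 (fun m hm => h m (by omega))
        rcases h2 with h2 | h2
        · left; omega
        · right; omega

end Pool.Agent.Q278.El
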