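import Pool.Agent.Q278.El.Defs

namespace Pool.Agent.Q278.El
open Finset

theorem low_N (e : ℕ → Sym2 ℕ) (v : ℕ) : ∃ N, ∀ u < v, (∃ m, e m = s(u, v)) →
    ∃ m < N, e m = s(u, v) := by
  classical
  have h : ∀ u : ℕ, ∃ Nu : ℕ, (∃ m, e m = s(u, v)) → ∃ m < Nu, e m = s(u, v) := by
    intro u
    by_cases hu : ∃ m, e m = s(u, v)
    · obtain ⟨m, hm⟩ := hu
      exact ⟨m + 1, fun _ => ⟨m, Nat.lt_succ_self m, hm⟩⟩
    · exact ⟨0, fun h' => absurd h' hu⟩
  choose Nu hNu using h
  refine ⟨(range v).sup Nu, fun u hu hex => ?_⟩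
  obtain ⟨m, hm, he⟩ := hNu u hex
  exact ⟨m, lt_of_lt_of_le hm (Finset.le_sup (f := Nu) (Finset.mem_range.2 hu)), he⟩

theorem Low : TaskLow := by
  classical
  intro e c k v H hdiag hinj hH hlt
  obtain ⟨N, hN⟩ := low_N e v
  refine ⟨N, fun n hn => ?_⟩
  set φ : ℕ → ℕ := fun m => if h : ∃ u, e m = s(v, u) then Classical.choose h else 0 with hφ
  have hφs : ∀ m, v ∈ e m → e m = s(v, φ m) := by
    intro m hm
    have hex : ∃ u, e m = s(v, u) := Sym2.mem_iff_exists.1 hm
    have h1 := Classical.choose_spec hex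
    simp only [hφ, dif_pos hex]
    exact h1
  set F1 : Finset ℕ := (range n).filter fun m => c m = true ∧ v ∈ e m with hF1
  set F2 : Finset ℕ := (range v).filter fun u => ∀ m < n, e m ≠ s(u, v) with hF2
  have hg : g e c n v = F1.card := by
    unfold g
    rfl
  have hb : b e n v = F2.card := by
    unfold b
    rw [hF2]
  have hinjφ : Set.InjOn φ (F1 : Set ℕ) := by
    intro m hm m' hm' hmm
    rw [hF1, Finset.mem_coe, Finset.mem_filter] at hm hm'
    apply hinj
    rw [hφs m hm.2.2, hφs m' hm'.2.2, hmm]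
  have hcard1 : (F1.image φ).card = F1.card := Finset.card_image_of_injOn hinjφ
  have hdis : Disjoint (F1.image φ) F2 := by
    rw [Finset.disjoint_left]
    intro u hu hu2
    rw [Finset.mem_image] at hu
    obtain ⟨m, hm, hmu⟩ := hu
    rw [hF1, Finset.mem_filter, Finset.mem_range] at hm
    rw [hF2, Finset.mem_filter] at hu2
    apply hu2.2 m hm.1
    rw [hφs m hm.2.2, hmu, Sym2.eq_swap]
  have hsub : ((F1.image φ ∪ F2 : Finset ℕ) : Set ℕ) ⊆ H.neighborSet v := by
    intro u hu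
    rw [Finset.mem_coe, Finset.mem_union] at hu
    rw [SimpleGraph.mem_neighborSet, ← SimpleGraph.mem_edgeSet, hH]
    rcases hu with hu | hu
    · rw [Finset.mem_image] at hu
      obtain ⟨m, hm, hmu⟩ := hu
      rw [hF1, Finset.mem_filter] at hm
      left
      exact ⟨m, by rw [hφs m hm.2.2, hmu], hm.2.1⟩
    · rw [hF2, Finset.mem_filter, Finset.mem_range] at hu
      right
      refine ⟨?_, ?_⟩
      · rw [Sym2.mk_isDiag_iff]
        exact (Nat.ne_of_lt hu.1).symm
      · intro m hm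
        have hm' : e m = s(u, v) := by rw [hm, Sym2.eq_swap]
        obtain ⟨m1, hm1, he1⟩ := hN u hu.1 ⟨m, hm'⟩
        exact hu.2 m1 (lt_of_lt_of_le hm1 hn) he1
  have hle : (((F1.image φ ∪ F2).card : ℕ) : ℕ∞) ≤ (H.neighborSet v).encard := by
    rw [← Set.encard_coe_eq_coe_finsetCard]
    exact Set.encard_le_encard hsub
  have hlt2 : (((F1.image φ ∪ F2).card : ℕ) : ℕ∞) < (k : ℕ∞) := lt_of_le_of_lt hle hlt
  have hlt3 : (F1.image φ ∪ F2).card < k := by exact_mod_cast hlt2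
  rw [Finset.card_union_of_disjoint hdis, hcard1] at hlt3
  rw [hg, hb]
  exact hlt3

end Pool.Agent.Q278.El
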