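import Pool.Agent.Q278.El.Defs

/-! T4: a run following a strategy of Seeker in which Hider follows the rule. -/

namespace Pool.Agent.Q278.El
open Finset

private theorem g_congr {e e' : ℕ → Sym2 ℕ} {c c' : ℕ → Bool} {n : ℕ}
    (he : ∀ m, m < n → e' m = e m) (hc : ∀ m, m < n → c' m = c m) (x : ℕ) :
    g e' c' n x = g e c n x := by
  unfold g
  congr 1
  refine Finset.filter_congr fun m hm => ?_
  rw [he m (Finset.mem_range.mp hm), hc m (Finset.mem_range.mp hm)]

private theorem b_congr {e e' : ℕ → Sym2 ℕ} {n : ℕ}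
    (he : ∀ m, m < n → e' m = e m) (x : ℕ) : b e' n x = b e n x := by
  unfold b
  congr 1
  refine Finset.filter_congr fun u _ => ?_
  refine forall₂_congr fun m hm => ?_
  rw [he m hm]

private theorem rule_congr {k : ℕ} {e e' : ℕ → Sym2 ℕ} {c c' : ℕ → Bool} {n : ℕ}
    (he : ∀ m, m < n → e' m = e m) (hn : e' n = e n) (hc : ∀ m, m < n → c' m = c m) :
    Rule k e' c' n ↔ Rule k e c n := by
  unfold Rule
  refine exists₂_congr fun x z => ?_
  rw [hn, g_congr he hc x, b_congr he x]

open Classical in
/-- the answer of Hider after the history `L`, if Seeker follows `σ` -/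
private noncomputable def answer (k : ℕ) (σ : List (Sym2 ℕ × Bool) → Sym2 ℕ) (L : List (Sym2 ℕ × Bool)) :
    Bool :=
  decide (Rule k (fun m => if m < L.length then (L.getD m (s(0, 0), false)).1 else σ L)
    (fun m => (L.getD m (s(0, 0), false)).2) L.length)

/-- the histories -/
private noncomputable def Hs (k : ℕ) (σ : List (Sym2 ℕ × Bool) → Sym2 ℕ) : ℕ → List (Sym2 ℕ × Bool)
  | 0 => []
  | n + 1 => Hs k σ n ++ [(σ (Hs k σ n), answer k σ (Hs k σ n))]

private theorem hist_eq (k : ℕ) (σ : List (Sym2 ℕ × Bool) → Sym2 ℕ) (n : ℕ) :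
    hist (fun n => σ (Hs k σ n)) (fun n => answer k σ (Hs k σ n)) n = Hs k σ n := by
  induction n with
  | zero => rfl
  | succ n ih =>
    have h : hist (fun n => σ (Hs k σ n)) (fun n => answer k σ (Hs k σ n)) (n + 1) =
        hist (fun n => σ (Hs k σ n)) (fun n => answer k σ (Hs k σ n)) n ++
          [(σ (Hs k σ n), answer k σ (Hs k σ n))] := by
      unfold hist
      rw [List.range_succ, List.map_append]
      rfl
    rw [h, ih]
    rfl

theorem Run' : TaskRun := by
  intro k σ
  refine ⟨fun n => σ (Hs k σ n), fun n => answer k σ (Hs k σ n), fun n => ?_, fun n => ?_⟩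
  · rw [hist_eq]
  · have hlen : (Hs k σ n).length = n := by
      rw [← hist_eq k σ n]
      simp [hist]
    have hget : ∀ m, m < n → (Hs k σ n).getD m (s(0, 0), false) =
        (σ (Hs k σ m), answer k σ (Hs k σ m)) := by
      intro m hm
      conv_lhs => rw [← hist_eq k σ n]
      simp [hist, List.getD_eq_getElem?_getD, List.getElem?_map, List.getElem?_range hm]
    show answer k σ (Hs k σ n) = true ↔ _
    unfold answer
    simp only [decide_eq_true_eq, hlen]
    refine rule_congr ?_ ?_ ?_
    · intro m hm
      simp only [if_pos hm, hget m hm]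
    · simp
    · intro m hm
      simp only [hget m hm]
      rfl

end Pool.Agent.Q278.El
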